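import Mathlib

set_option autoImplicit false

namespace Pool.Agent.Results.MP_f8d954_co.TwoPlusThree

variable {V : Type}

/-- A partial order with no `a ⊏ c`, `b ⊏ d`, `b ⋢ c`, `a ⋢ d`. -/
def IsIntervalOrder (r : V → V → Prop) : Prop :=
  IsPartialOrder V r ∧ ¬ ∃ a b c d, (r a c ∧ a ≠ c) ∧ (r b d ∧ b ≠ d) ∧ ¬ r b c ∧ ¬ r a d

/-- The length of a longest chain with largest element `p`. -/
noncomputable def rank (r : V → V → Prop) (p : V) : ℕ :=
  sSup {n | ∃ s : Finset V, IsChain r (s : Set V) ∧ p ∈ s ∧ (∀ x ∈ s, r x p) ∧ s.card = n + 1}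

/-- `k` interval orders whose intersection is `r`. -/
def Realizes (r : V → V → Prop) {k : ℕ} (R : Fin k → V → V → Prop) : Prop :=
  (∀ j, IsIntervalOrder (R j)) ∧ ∀ x y, r x y ↔ ∀ j, R j x y

def P (x y : Fin 5) : Prop := x ≤ y ∧ (x ≤ 1 ↔ y ≤ 1)

def Q : Fin 2 → Fin 5 → Fin 5 → Prop := ![fun x y => x ≤ y, fun x y => x + 3 ≤ y + 3]

instance : DecidableRel P := fun _ _ => inferInstanceAs (Decidable (_ ∧ _))

theorem po (r : V → V → Prop) (h1 : ∀ a, r a a) (h2 : ∀ a b c, r a b → r b c → r a c)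
    (h3 : ∀ a b, r a b → r b a → a = b) : IsPartialOrder V r :=
  { refl := h1, trans := h2, antisymm := h3 }

theorem real : Realizes P Q := by
  refine ⟨fun j => ?_, fun x y => ?_⟩
  · fin_cases j <;> refine ⟨po _ ?_ ?_ ?_, ?_⟩ <;> simp only [Q] <;> dsimp <;> decide
  · simp only [Fin.forall_fin_two, Q]
    dsimp
    revert x y
    decide

theorem result : ¬ ∀ (V : Type) [Fintype V] (r : V → V → Prop), IsPartialOrder V r → ∀ k : ℕ,
    IsLeast {m | ∃ R : Fin m → V → V → Prop, Realizes r R} k →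
    ∃ R : Fin k → V → V → Prop, Realizes r R ∧ ∀ j p, rank (R j) p = rank r p := by
  intro h
  obtain ⟨R, ⟨hI, hR⟩, hk⟩ := h (Fin 5) P (po _ (by decide) (by decide) (by decide)) _
    ⟨Nat.sInf_mem ⟨2, Q, real⟩, fun _ hm => Nat.sInf_le hm⟩
  have h1 : rank P 1 ≤ 1 := by
    refine csSup_le' ?_
    rintro n ⟨s, -, -, h3, h4⟩
    have : s ⊆ {0, 1} := fun x hx => by
      have := h3 x hx
      revert this
      generalize x = y
      revert y
      decide
    have := Finset.card_le_card this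
    simp at this
    omega
  refine absurd ((hR 0 4).2 fun j => ?_) (by decide)
  have e : ∀ x y, P x y → R j x y := fun x y hxy => (hR x y).1 hxy j
  have ho := (hI j).1
  by_contra h04
  have h31 : R j 3 1 := by
    by_contra h31
    exact (hI j).2 ⟨0, 3, 1, 4, ⟨e _ _ (by decide), by decide⟩, ⟨e _ _ (by decide), by decide⟩,
      h31, h04⟩
  have h23 : R j 2 3 := e _ _ (by decide)
  have h21 : R j 2 1 := ho.trans _ _ _ h23 h31
  have h2 : 2 ≤ rank (R j) 1 := by
    refine le_csSup ⟨5, ?_⟩ ⟨{2, 3, 1}, ?_, by simp, ?_, by decide⟩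
    · rintro n ⟨s, -, -, -, h4⟩
      have := s.card_le_univ
      simp at this
      omega
    · intro x hx y hy hxy
      simp only [Finset.coe_insert, Finset.coe_singleton, Set.mem_insert_iff,
        Set.mem_singleton_iff] at hx hy
      rcases hx with rfl | rfl | rfl <;> rcases hy with rfl | rfl | rfl <;> simp_all
    · simp only [Finset.mem_insert, Finset.mem_singleton]
      rintro x (rfl | rfl | rfl)
      exacts [h21, h31, ho.refl _]
  rw [hk] at h2
  omega

end Pool.Agent.Results.MP_f8d954_co.TwoPlusThree
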